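import Pool.Agent.H474.RZ.Stm

set_option autoImplicit false

open Complex MeasureTheory Filter Topology
open Pool.Agent.H474.RZ
open scoped FourierTransform RealInnerProductSpace

namespace Pool.Agent.H800.RZ.PL

theorem planch {ψ : ℝ → ℂ} (hc : Continuous ψ) (hi : Integrable ψ) (hF : Integrable (𝓕 ψ)) :
    ∫ w : ℝ, ‖𝓕 ψ w‖ ^ 2 = ∫ t : ℝ, ‖ψ t‖ ^ 2 := by
  have h1 := VectorFourier.integral_sesq_fourierIntegral_eq_neg_flip
    (innerSL ℂ : ℂ →L⋆[ℂ] ℂ →L[ℂ] ℂ)
    (L := innerₗ ℝ) Real.continuous_fourierChar continuous_inner hi hF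
  have h2 : ∀ x : ℝ, VectorFourier.fourierIntegral Real.fourierChar volume (-(innerₗ ℝ).flip) (𝓕 ψ) x
      = ψ x := by
    intro x
    have h3 := congrFun (hc.fourierInv_fourier_eq hi hF) x
    rw [← h3, Real.fourierInv_eq]
    unfold VectorFourier.fourierIntegral
    simp
  simp only [h2] at h1
  have h4 : ∀ w : ℝ, VectorFourier.fourierIntegral Real.fourierChar volume (innerₗ ℝ) ψ w = 𝓕 ψ w :=
    fun w => rfl
  simp only [h4, innerSL_apply_apply, inner_self_eq_norm_sq_to_K] at h1
  have h5 : (∫ w : ℝ, ((‖𝓕 ψ w‖ ^ 2 : ℝ) : ℂ)) = ∫ t : ℝ, ((‖ψ t‖ ^ 2 : ℝ) : ℂ) := by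
    push_cast
    exact h1
  rw [integral_complex_ofReal, integral_complex_ofReal] at h5
  exact_mod_cast h5

theorem gen {ψ g : ℝ → ℂ} (hc : Continuous ψ) (hi : Integrable ψ)
    (hg : ∀ x : ℝ, g x = ∫ t : ℝ, ψ t * cexp (I * x * t)) (hgi : Integrable g) :
    Integrable (fun x => ‖g x‖ ^ 2) ∧ (∫ x : ℝ, ‖g x‖ ^ 2) = 2 * Real.pi * ∫ t : ℝ, ‖ψ t‖ ^ 2 := by
  have hpi := Real.pi_pos
  have hF : ∀ w : ℝ, 𝓕 ψ w = g (w * (-(2 * Real.pi))) := by
    intro w
    rw [hg, Real.fourier_eq]
    refine integral_congr_ae (Eventually.of_forall fun t => ?_)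
    simp only [Circle.smul_def, Real.fourierChar_apply, smul_eq_mul]
    rw [mul_comm]
    congr 2
    simp only [RCLike.inner_apply, conj_trivial]
    push_cast
    ring
  have hFi : Integrable (𝓕 ψ) := by
    have h1 : 𝓕 ψ = fun w => g (w * (-(2 * Real.pi))) := funext hF
    rw [h1]
    exact hgi.comp_mul_right' (by linarith [hpi] : (-(2 * Real.pi)) ≠ 0)
  have hbd : ∀ x : ℝ, ‖g x‖ ≤ ∫ t : ℝ, ‖ψ t‖ := by
    intro x
    rw [hg]
    refine (norm_integral_le_integral_norm _).trans (le_of_eq ?_)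
    refine integral_congr_ae (Eventually.of_forall fun t => ?_)
    show ‖ψ t * cexp (I * x * t)‖ = ‖ψ t‖
    rw [norm_mul, Complex.norm_exp]
    simp
  constructor
  · refine (hgi.norm.const_mul (∫ t : ℝ, ‖ψ t‖)).mono' ?_ (Eventually.of_forall fun x => ?_)
    · exact (hgi.aestronglyMeasurable.norm).pow 2
    · rw [Real.norm_of_nonneg (by positivity), pow_two]
      exact mul_le_mul_of_nonneg_right (hbd x) (norm_nonneg _)
  · have h1 := planch hc hi hFi
    simp only [hF] at h1
    rw [Measure.integral_comp_mul_right (fun x : ℝ => ‖g x‖ ^ 2)] at h1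
    rw [← h1, smul_eq_mul, abs_inv, abs_neg, abs_of_pos (by linarith)]
    field_simp

/-- the factor of the sliding integral -/
noncomputable def KH (H t : ℝ) : ℂ := ∫ u in (0 : ℝ)..H, cexp (I * u * t)

theorem KH_cont (H : ℝ) : Continuous (KH H) := by
  unfold KH
  refine intervalIntegral.continuous_parametric_intervalIntegral_of_continuous' ?_ 0 H
  unfold Function.uncurry
  fun_prop

theorem norm_e (u t : ℝ) : ‖cexp (I * u * t)‖ = 1 := by
  rw [Complex.norm_exp]
  simp

theorem KH_le {H : ℝ} (hH : 0 < H) (t : ℝ) : ‖KH H t‖ ≤ H := by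
  have h1 := intervalIntegral.norm_integral_le_of_norm_le_const (a := 0) (b := H) (C := 1)
    (f := fun u : ℝ => cexp (I * u * t)) (fun u _ => (norm_e u t).le)
  rwa [sub_zero, abs_of_pos hH, one_mul] at h1

theorem KH_le2 (H : ℝ) {t : ℝ} (ht : t ≠ 0) : ‖KH H t‖ ≤ 2 / |t| := by
  have h0 : (I * t : ℂ) ≠ 0 := mul_ne_zero I_ne_zero (by exact_mod_cast ht)
  have h1 : KH H t = (cexp (I * H * t) - 1) / (I * t) := by
    unfold KH
    have h2 : ∀ u : ℝ, cexp (I * u * t) = cexp (I * t * u) := fun u => by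
      congr 1
      ring
    simp only [h2]
    rw [integral_exp_mul_complex h0]
    simp
  rw [h1, norm_div, norm_mul, norm_I, one_mul, Complex.norm_real, Real.norm_eq_abs]
  refine div_le_div_of_nonneg_right ?_ (abs_nonneg t)
  refine (norm_sub_le _ _).trans ?_
  rw [norm_e, norm_one]
  norm_num

theorem KH_sq {H : ℝ} (hH : 0 < H) {t : ℝ} (ht : t ≠ 0) : ‖KH H t‖ ^ 2 ≤ min (H ^ 2) (4 / t ^ 2) := by
  refine le_min (pow_le_pow_left₀ (norm_nonneg _) (KH_le hH t) 2) ?_
  refine (pow_le_pow_left₀ (norm_nonneg _) (KH_le2 H ht) 2).trans (le_of_eq ?_)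
  rw [div_pow, sq_abs]
  norm_num

theorem KH_shift (H x t : ℝ) :
    ∫ u in x..(x + H), cexp (I * u * t) = cexp (I * x * t) * KH H t := by
  unfold KH
  rw [← intervalIntegral.integral_const_mul]
  have h1 := intervalIntegral.integral_comp_add_left (a := 0) (b := H)
    (fun u : ℝ => cexp (I * u * t)) x
  rw [add_zero] at h1
  rw [← h1]
  refine intervalIntegral.integral_congr fun u _ => ?_
  show cexp (I * ((x + u : ℝ) : ℂ) * t) = cexp (I * x * t) * cexp (I * u * t)
  rw [← Complex.exp_add]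
  congr 1
  push_cast
  ring

theorem t_PL : S_PL := by
  intro ψ g hc hi hi2 hg hgi
  obtain ⟨h1, h2⟩ := gen hc hi hg hgi
  refine ⟨h1, h2, fun H hH => ?_⟩
  have hKc := KH_cont H
  set ψH : ℝ → ℂ := fun t => ψ t * KH H t with hψH
  have hHc : Continuous ψH := hc.mul hKc
  have hHi : Integrable ψH := by
    refine (hi.norm.mul_const H).mono' hHc.aestronglyMeasurable (Eventually.of_forall fun t => ?_)
    rw [hψH, norm_mul]
    exact mul_le_mul_of_nonneg_left (KH_le hH t) (norm_nonneg _)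
  have hgH : ∀ x : ℝ, (∫ u in x..(x + H), g u) = ∫ t : ℝ, ψH t * cexp (I * x * t) := by
    intro x
    have hx : x ≤ x + H := by linarith
    have hsw : ∫ u in x..(x + H), ∫ t : ℝ, ψ t * cexp (I * u * t) =
        ∫ t : ℝ, ∫ u in x..(x + H), ψ t * cexp (I * u * t) := by
      simp only [intervalIntegral.integral_of_le hx]
      refine integral_integral_swap ?_
      have h3 : Integrable (fun p : ℝ × ℝ => ψ p.2) ((volume.restrict (Set.Ioc x (x + H))).prod volume) :=
        hi.comp_snd _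
      refine h3.norm.mono' ?_ (Eventually.of_forall fun p => ?_)
      · refine Continuous.aestronglyMeasurable ?_
        unfold Function.uncurry
        fun_prop
      · show ‖ψ p.2 * cexp (I * p.1 * p.2)‖ ≤ ‖ψ p.2‖
        rw [norm_mul, norm_e, mul_one]
    calc (∫ u in x..(x + H), g u) = ∫ u in x..(x + H), ∫ t : ℝ, ψ t * cexp (I * u * t) :=
          intervalIntegral.integral_congr fun u _ => hg u
      _ = ∫ t : ℝ, ∫ u in x..(x + H), ψ t * cexp (I * u * t) := hsw
      _ = ∫ t : ℝ, ψH t * cexp (I * x * t) := by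
          refine integral_congr_ae (Eventually.of_forall fun t => ?_)
          show ∫ u in x..(x + H), ψ t * cexp (I * u * t) = ψ t * KH H t * cexp (I * x * t)
          rw [intervalIntegral.integral_const_mul, KH_shift]
          ring
  have hgHi : Integrable (fun x : ℝ => ∫ u in x..(x + H), g u) := by
    have h3 : Integrable ((Set.Ico (-H) 0).indicator (fun _ : ℝ => (1 : ℂ))) := by
      refine (integrable_indicator_iff measurableSet_Ico).2 ?_
      exact integrableOn_const (by simp)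
    have h4 := hgi.integrable_convolution (ContinuousLinearMap.mul ℂ ℂ) h3
    refine h4.congr (Eventually.of_forall fun x => ?_)
    show ∫ t, ContinuousLinearMap.mul ℂ ℂ (g t) ((Set.Ico (-H) 0).indicator (fun _ : ℝ => (1 : ℂ)) (x - t))
      = ∫ u in x..(x + H), g u
    rw [intervalIntegral.integral_of_le (by linarith), ← integral_indicator measurableSet_Ioc]
    refine integral_congr_ae (Eventually.of_forall fun t => ?_)
    show ContinuousLinearMap.mul ℂ ℂ (g t) ((Set.Ico (-H) 0).indicator (fun _ : ℝ => (1 : ℂ)) (x - t)) =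
      (Set.Ioc x (x + H)).indicator (fun x => g x) t
    by_cases ht : t ∈ Set.Ioc x (x + H)
    · have ht2 : x - t ∈ Set.Ico (-H) 0 := ⟨by linarith [ht.2], by linarith [ht.1]⟩
      rw [Set.indicator_of_mem ht, Set.indicator_of_mem ht2]
      simp
    · have ht2 : x - t ∉ Set.Ico (-H) 0 := by
        intro h5
        exact ht ⟨by linarith [h5.2], by linarith [h5.1]⟩
      rw [Set.indicator_of_notMem ht, Set.indicator_of_notMem ht2]
      simp
  obtain ⟨h3, h4⟩ := gen hHc hHi hgH hgHi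
  refine ⟨h3, ?_⟩
  rw [h4]
  refine mul_le_mul_of_nonneg_left ?_ (by positivity)
  refine integral_mono_ae ?_ ?_ ?_
  · refine (hi2.mul_const (H ^ 2)).mono' (hHc.norm.pow 2).aestronglyMeasurable
      (Eventually.of_forall fun t => ?_)
    rw [Real.norm_of_nonneg (by positivity)]
    show ‖ψ t * KH H t‖ ^ 2 ≤ ‖ψ t‖ ^ 2 * H ^ 2
    rw [norm_mul, mul_pow]
    exact mul_le_mul_of_nonneg_left (pow_le_pow_left₀ (norm_nonneg _) (KH_le hH t) 2) (by positivity)
  · refine (hi2.mul_const (H ^ 2)).mono' ?_ (Eventually.of_forall fun t => ?_)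
    · refine (hc.norm.pow 2).aestronglyMeasurable.mul ?_
      refine Measurable.aestronglyMeasurable ?_
      exact measurable_const.min (measurable_const.div (measurable_id.pow_const 2))
    · rw [Real.norm_of_nonneg (by positivity)]
      exact mul_le_mul_of_nonneg_left (min_le_left _ _) (by positivity)
  · have h5 : ∀ᵐ t : ℝ, t ≠ 0 := by
      rw [ae_iff]
      simp
    filter_upwards [h5] with t ht
    show ‖ψ t * KH H t‖ ^ 2 ≤ ‖ψ t‖ ^ 2 * min (H ^ 2) (4 / t ^ 2)
    rw [norm_mul, mul_pow]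
    exact mul_le_mul_of_nonneg_left (KH_sq hH ht) (by positivity)

end Pool.Agent.H800.RZ.PL
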